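import Mathlib
import Pool.Agent.TH235.UB.Three
import Pool.Agent.N255.TGX.Dyadic

/-!
# The `3x+d` maps: counting the pairs `(d, x)` for which the orbit of `x` stays large

The starting theorem `TH235/UB` bounds, for one odd `d` prime to `3`, the number of the integers of
`[-X, X]` whose `3x+d` orbit avoids `[-y, y]` by `A X (|d| / y) ^ c` with `c > 1 - H` and `A` independent
of `d`. Here this is summed over `d`.
-/

set_option autoImplicit false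

namespace Pool.Agent.T63.CL

/-- the `3x+d` map on the integers -/
def T (d x : ℤ) : ℤ := if x % 2 = 0 then x / 2 else (3 * x + d) / 2

/-- the binary entropy of `log 2 / log 3` in bits, `0.94995...` -/
noncomputable def H : ℝ := Real.binEntropy (Real.log 2 / Real.log 3) / Real.log 2

/-- some term of the `3x+d` orbit of `x` is at most `y` in absolute value -/
def Down (d x : ℤ) (y : ℝ) : Prop := ∃ n : ℕ, |(((T d)^[n] x : ℤ) : ℝ)| ≤ y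

theorem H_lt : H < 0.951 := Pool.Agent.H319R2.beta_lt

theorem base : ∃ c : ℝ, 1 - H < c ∧ c < 1 ∧ ∃ A : ℝ, 0 < A ∧ ∀ d : ℤ, d % 2 = 1 → ¬ (3 : ℤ) ∣ d →
    ∀ X y : ℝ, 1 ≤ X → 0 < y →
    ({x : ℤ | |(x : ℝ)| ≤ X ∧ ¬ Down d x y}.ncard : ℝ) ≤ A * X * (|(d : ℝ)| / y) ^ c := by
  obtain ⟨c, hc, hc1, A, hA, h⟩ := Pool.Agent.TH235.UB.threeV
  refine ⟨c, hc, hc1, A, hA, fun d hd hd3 X y hX hy => ?_⟩
  have h1 := h d (Int.odd_iff.2 hd) hd3 X y hX hy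
  refine le_trans (le_of_eq ?_) h1
  congr 2
  ext x
  simp only [Down, Set.mem_ofPred_eq, not_exists, not_le]
  exact Iff.rfl

theorem fin_abs (X : ℝ) : {x : ℤ | |(x : ℝ)| ≤ X}.Finite := by
  apply (Set.finite_Icc (-⌈X⌉) ⌈X⌉).subset
  intro x hx
  have h1 := abs_le.1 (show |(x : ℝ)| ≤ X from hx)
  have h2 := Int.le_ceil X
  rw [Set.mem_Icc]
  constructor
  · have : (-(⌈X⌉ : ℤ) : ℝ) ≤ x := by linarith
    exact_mod_cast this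
  · have : (x : ℝ) ≤ (⌈X⌉ : ℤ) := by linarith
    exact_mod_cast this

/-- the integers of absolute value at most `D` -/
theorem card_abs {D : ℝ} (hD : 1 ≤ D) : (((Finset.Icc (-⌊D⌋) ⌊D⌋).card : ℕ) : ℝ) ≤ 3 * D := by
  have h0 : 0 ≤ ⌊D⌋ := Int.floor_nonneg.2 (by linarith)
  have h1 := Int.floor_le D
  rw [Int.card_Icc]
  have h2 : (((⌊D⌋ + 1 - -⌊D⌋).toNat : ℕ) : ℤ) = 2 * ⌊D⌋ + 1 := by
    rw [Int.toNat_of_nonneg (by omega)]
    ring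
  have h3 : (((⌊D⌋ + 1 - -⌊D⌋).toNat : ℕ) : ℝ) = 2 * (⌊D⌋ : ℝ) + 1 := by exact_mod_cast h2
  rw [h3]
  linarith

/-- The pairs `(d, x)`, `|d| ≤ D`, `|x| ≤ X`, such that the `3x+d` orbit of `x` avoids `[-y, y]`. -/
def BadBox (D X y : ℝ) : Set (ℤ × ℤ) :=
  {p | |(p.1 : ℝ)| ≤ D ∧ p.1 % 2 = 1 ∧ ¬ (3 : ℤ) ∣ p.1 ∧ |(p.2 : ℝ)| ≤ X ∧ ¬ Down p.1 p.2 y}

theorem badBox_fin (D X y : ℝ) : (BadBox D X y).Finite :=
  ((fin_abs D).prod (fin_abs X)).subset fun _ hp => ⟨hp.1, hp.2.2.2.1⟩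

theorem box {c A : ℝ} (hc0 : 0 ≤ c) (hA : 0 < A)
    (h : ∀ d : ℤ, d % 2 = 1 → ¬ (3 : ℤ) ∣ d → ∀ X y : ℝ, 1 ≤ X → 0 < y →
      ({x : ℤ | |(x : ℝ)| ≤ X ∧ ¬ Down d x y}.ncard : ℝ) ≤ A * X * (|(d : ℝ)| / y) ^ c)
    {D X y : ℝ} (hD : 1 ≤ D) (hX : 1 ≤ X) (hy : 0 < y) :
    ((BadBox D X y).ncard : ℝ) ≤ 3 * A * D * X * (D / y) ^ c := by
  classical
  obtain ⟨I, hI⟩ : ∃ I : Finset ℤ,
      I = (Finset.Icc (-⌊D⌋) ⌊D⌋).filter fun d => d % 2 = 1 ∧ ¬ (3 : ℤ) ∣ d := ⟨_, rfl⟩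
  have hmem : ∀ d ∈ I, |(d : ℝ)| ≤ D ∧ d % 2 = 1 ∧ ¬ (3 : ℤ) ∣ d := by
    intro d hd
    rw [hI, Finset.mem_filter, Finset.mem_Icc] at hd
    refine ⟨?_, hd.2⟩
    rw [abs_le]
    have h1 := Int.floor_le D
    constructor
    · have : ((-⌊D⌋ : ℤ) : ℝ) ≤ d := by exact_mod_cast hd.1.1
      push_cast at this
      linarith
    · have : (d : ℝ) ≤ (⌊D⌋ : ℤ) := by exact_mod_cast hd.1.2
      linarith
  have hIc : ((I.card : ℕ) : ℝ) ≤ 3 * D := by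
    refine le_trans ?_ (card_abs hD)
    rw [hI]
    exact_mod_cast Finset.card_filter_le _ _
  have hsub : BadBox D X y ⊆
      ⋃ d ∈ I, (fun x : ℤ => (d, x)) '' {x : ℤ | |(x : ℝ)| ≤ X ∧ ¬ Down d x y} := by
    rintro ⟨d, x⟩ ⟨h1, h2, h3, h4, h5⟩
    rw [Set.mem_iUnion₂]
    refine ⟨d, ?_, x, ⟨h4, h5⟩, rfl⟩
    rw [hI, Finset.mem_filter, Finset.mem_Icc]
    refine ⟨⟨?_, ?_⟩, h2, h3⟩
    · rw [neg_le, Int.le_floor]
      push_cast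
      exact (neg_le_abs _).trans h1
    · rw [Int.le_floor]
      exact (le_abs_self _).trans h1
  have hfin : ∀ d : ℤ, {x : ℤ | |(x : ℝ)| ≤ X ∧ ¬ Down d x y}.Finite := fun d =>
    (fin_abs X).subset fun x hx => hx.1
  have h1 : ((BadBox D X y).ncard : ℝ) ≤
      ∑ d ∈ I, ({x : ℤ | |(x : ℝ)| ≤ X ∧ ¬ Down d x y}.ncard : ℝ) := by
    have h2 := Set.ncard_le_ncard hsub (by
      apply Set.Finite.biUnion (Finset.finite_toSet I)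
      intro d _
      exact (hfin d).image _)
    have h3 : (⋃ d ∈ I, (fun x : ℤ => (d, x)) '' {x : ℤ | |(x : ℝ)| ≤ X ∧ ¬ Down d x y}).ncard ≤
        ∑ d ∈ I, ({x : ℤ | |(x : ℝ)| ≤ X ∧ ¬ Down d x y}.ncard) := by
      clear h2 hsub hIc hmem hI
      induction I using Finset.induction_on with
      | empty => simp
      | insert a s ha ih =>
        rw [Finset.set_biUnion_insert, Finset.sum_insert ha]
        refine (Set.ncard_union_le _ _).trans (Nat.add_le_add ?_ ih)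
        exact Set.ncard_image_le (hfin a)
    exact_mod_cast h2.trans h3
  refine h1.trans ?_
  calc ∑ d ∈ I, ({x : ℤ | |(x : ℝ)| ≤ X ∧ ¬ Down d x y}.ncard : ℝ)
      ≤ ∑ _d ∈ I, A * X * (D / y) ^ c := by
        refine Finset.sum_le_sum fun d hd => ?_
        obtain ⟨g1, g2, g3⟩ := hmem d hd
        refine (h d g2 g3 X y hX hy).trans ?_
        have : (|(d : ℝ)| / y) ^ c ≤ (D / y) ^ c := by
          apply Real.rpow_le_rpow (by positivity) _ hc0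
          gcongr
        have h0 : 0 ≤ A * X := by positivity
        exact mul_le_mul_of_nonneg_left this h0
    _ = (I.card : ℝ) * (A * X * (D / y) ^ c) := by rw [Finset.sum_const, nsmul_eq_mul]
    _ ≤ 3 * D * (A * X * (D / y) ^ c) := by
        apply mul_le_mul_of_nonneg_right hIc
        have : 0 ≤ (D / y) ^ c := Real.rpow_nonneg (by positivity) _
        positivity
    _ = _ := by ring

/-- the admissible pairs: `d` is odd, prime to `3` and `|d| ≤ |x| ^ θ` -/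
def Adm (θ : ℝ) (p : ℤ × ℤ) : Prop :=
  p.1 % 2 = 1 ∧ ¬ (3 : ℤ) ∣ p.1 ∧ |(p.1 : ℝ)| ≤ |(p.2 : ℝ)| ^ θ

/-- the `3x+d` orbit of `x` comes down to a value at most `|x| ^ η` -/
def Good (η : ℝ) (p : ℤ × ℤ) : Prop := Down p.1 p.2 (|(p.2 : ℝ)| ^ η)

/-- **Power saving for pairs.** -/
theorem pairs : ∃ c : ℝ, 1 - H < c ∧ c < 1 ∧ ∀ η θ : ℝ, 0 < η → η ≤ 1 → 0 ≤ θ →
    ∃ K : ℝ, ∀ X : ℝ, 1 ≤ X → {p | (Adm θ p ∧ ¬ Good η p) ∧ |(p.2 : ℝ)| ≤ X}.Finite ∧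
      ({p | (Adm θ p ∧ ¬ Good η p) ∧ |(p.2 : ℝ)| ≤ X}.ncard : ℝ) ≤
        K * X ^ (1 + (1 + c) * θ - c * η) := by
  obtain ⟨c, hc, hc1, A, hA, h⟩ := base
  have hH := H_lt
  have hc0 : 0 < c := by linarith
  refine ⟨c, hc, hc1, fun η θ hη hη1 hθ => ?_⟩
  have hfin : ∀ X : ℝ, {p | (Adm θ p ∧ ¬ Good η p) ∧ |(p.2 : ℝ)| ≤ X}.Finite := by
    intro X
    apply ((fin_abs (X ^ θ)).prod (fin_abs X)).subset
    rintro ⟨d, x⟩ ⟨⟨⟨-, -, h3⟩, -⟩, h5⟩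
    refine ⟨?_, h5⟩
    exact (show |(d : ℝ)| ≤ |(x : ℝ)| ^ θ from h3).trans (Real.rpow_le_rpow (abs_nonneg _) h5 hθ)
  have hcη : c * η < 1 := by nlinarith
  have hs : 0 < 1 + (1 + c) * θ - c * η := by
    have : 0 ≤ (1 + c) * θ := by positivity
    linarith
  suffices hs' : ∃ K : ℝ, ∀ X : ℝ, 1 ≤ X →
      ({p | (Adm θ p ∧ ¬ Good η p) ∧ |(p.2 : ℝ)| ≤ X}.ncard : ℝ) ≤
        K * X ^ (1 + (1 + c) * θ - c * η) by
    obtain ⟨K, hK⟩ := hs'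
    exact ⟨K, fun X hX => ⟨hfin X, hK X hX⟩⟩
  refine Pool.Agent.N255.TGX.dyadic
    (N := fun X => ({p | (Adm θ p ∧ ¬ Good η p) ∧ |(p.2 : ℝ)| ≤ X}.ncard : ℝ))
    (C := 6 * A) (B := ({p | (Adm θ p ∧ ¬ Good η p) ∧ |(p.2 : ℝ)| ≤ 2}.ncard : ℝ)) (X₀ := 2)
    hs (by positivity) (Nat.cast_nonneg _) le_rfl ?_ ?_
  · intro X _ hX2
    have : {p | (Adm θ p ∧ ¬ Good η p) ∧ |(p.2 : ℝ)| ≤ X} ⊆
        {p | (Adm θ p ∧ ¬ Good η p) ∧ |(p.2 : ℝ)| ≤ 2} := fun p hp => ⟨hp.1, hp.2.trans hX2.le⟩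
    have h2 := Set.ncard_le_ncard this (hfin 2)
    exact_mod_cast h2
  · intro X hX
    have hX0 : 0 < X := by linarith
    obtain ⟨y, hy⟩ : ∃ y : ℝ, y = (X / 2) ^ η := ⟨_, rfl⟩
    have hy0 : 0 < y := by rw [hy]; positivity
    have hsub : {p | (Adm θ p ∧ ¬ Good η p) ∧ |(p.2 : ℝ)| ≤ X} ⊆
        {p | (Adm θ p ∧ ¬ Good η p) ∧ |(p.2 : ℝ)| ≤ X / 2} ∪ BadBox (X ^ θ) X y := by
      rintro ⟨d, x⟩ ⟨⟨⟨h1, h2, h3⟩, h4⟩, h5⟩
      rcases le_or_gt |(x : ℝ)| (X / 2) with h6 | h6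
      · exact Or.inl ⟨⟨⟨h1, h2, h3⟩, h4⟩, h6⟩
      · right
        refine ⟨(show |(d : ℝ)| ≤ |(x : ℝ)| ^ θ from h3).trans
          (Real.rpow_le_rpow (abs_nonneg _) h5 hθ), h1, h2, h5, fun h7 => h4 ?_⟩
        obtain ⟨n, hn⟩ := h7
        refine ⟨n, hn.trans ?_⟩
        rw [hy]
        exact Real.rpow_le_rpow (by positivity) h6.le hη.le
    have h1 := (Set.ncard_le_ncard hsub ((hfin _).union (badBox_fin _ _ _))).trans
      (Set.ncard_union_le _ _)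
    have hD : 1 ≤ X ^ θ := Real.one_le_rpow (by linarith) hθ
    have h2 := box hc0.le hA h (D := X ^ θ) (X := X) (y := y) hD (by linarith) hy0
    have h3 : 3 * A * X ^ θ * X * (X ^ θ / y) ^ c ≤ 6 * A * X ^ (1 + (1 + c) * θ - c * η) := by
      have e1 : (X ^ θ / y) ^ c = X ^ (θ * c) * 2 ^ (η * c) / X ^ (η * c) := by
        rw [hy, Real.div_rpow (by positivity) (by positivity), ← Real.rpow_mul hX0.le,
          ← Real.rpow_mul (by positivity), Real.div_rpow hX0.le (by norm_num)]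
        field_simp
      have e2 : (2 : ℝ) ^ (η * c) ≤ 2 := by
        calc (2 : ℝ) ^ (η * c) ≤ (2 : ℝ) ^ (1 : ℝ) :=
              Real.rpow_le_rpow_of_exponent_le (by norm_num) (by rw [mul_comm]; exact hcη.le)
          _ = 2 := Real.rpow_one 2
      have e3 : X ^ θ * X * (X ^ (θ * c) / X ^ (η * c)) = X ^ (1 + (1 + c) * θ - c * η) := by
        rw [← Real.rpow_sub hX0]
        nth_rw 2 [← Real.rpow_one X]
        rw [← Real.rpow_add hX0, ← Real.rpow_add hX0]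
        congr 1
        ring
      have e4 : 0 ≤ X ^ (1 + (1 + c) * θ - c * η) := by positivity
      calc 3 * A * X ^ θ * X * (X ^ θ / y) ^ c
          = 3 * A * 2 ^ (η * c) * (X ^ θ * X * (X ^ (θ * c) / X ^ (η * c))) := by rw [e1]; ring
        _ = 3 * A * 2 ^ (η * c) * X ^ (1 + (1 + c) * θ - c * η) := by rw [e3]
        _ ≤ 3 * A * 2 * X ^ (1 + (1 + c) * θ - c * η) := by gcongr
        _ = _ := by ring
    have h4 : ({p | (Adm θ p ∧ ¬ Good η p) ∧ |(p.2 : ℝ)| ≤ X}.ncard : ℝ) ≤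
        ({p | (Adm θ p ∧ ¬ Good η p) ∧ |(p.2 : ℝ)| ≤ X / 2}.ncard : ℝ) +
          ((BadBox (X ^ θ) X y).ncard : ℝ) := by exact_mod_cast h1
    show _ ≤ _
    linarith

/-- the same with a loss, in the form used by the tools -/
theorem pairsε {c : ℝ} {η θ : ℝ}
    (h : ∃ K : ℝ, ∀ X : ℝ, 1 ≤ X → {p | (Adm θ p ∧ ¬ Good η p) ∧ |(p.2 : ℝ)| ≤ X}.Finite ∧
      ({p | (Adm θ p ∧ ¬ Good η p) ∧ |(p.2 : ℝ)| ≤ X}.ncard : ℝ) ≤
        K * X ^ (1 + (1 + c) * θ - c * η)) :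
    ∀ ε : ℝ, 0 < ε → ∃ C : ℝ, ∀ X : ℝ, 1 ≤ X →
      {p | (Adm θ p ∧ ¬ Good η p) ∧ |(p.2 : ℝ)| ≤ X}.Finite ∧
      ({p | (Adm θ p ∧ ¬ Good η p) ∧ |(p.2 : ℝ)| ≤ X}.ncard : ℝ) ≤
        C * X ^ (1 + (1 + c) * θ - c * η + ε) := by
  intro ε hε
  obtain ⟨K, hK⟩ := h
  refine ⟨|K|, fun X hX => ⟨(hK X hX).1, (hK X hX).2.trans ?_⟩⟩
  calc K * X ^ (1 + (1 + c) * θ - c * η) ≤ |K| * X ^ (1 + (1 + c) * θ - c * η) :=
        mul_le_mul_of_nonneg_right (le_abs_self K) (Real.rpow_nonneg (by linarith) _)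
    _ ≤ |K| * X ^ (1 + (1 + c) * θ - c * η + ε) :=
        mul_le_mul_of_nonneg_left (Real.rpow_le_rpow_of_exponent_le hX (by linarith)) (abs_nonneg K)

/-- ALL the `3x+d` orbits, `d` odd, prime to `3`, `|d| ≤ |x| ^ θ`, of ALL the integers `x` with
`||x| - u| ≤ w` come down to a value at most `|x| ^ η`. -/
def AllDown (θ η u w : ℝ) : Prop :=
  ∀ d x : ℤ, d % 2 = 1 → ¬ (3 : ℤ) ∣ d → |(d : ℝ)| ≤ |(x : ℝ)| ^ θ → |(|(x : ℝ)|) - u| ≤ w →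
    ∃ n : ℕ, |(((T d)^[n] x : ℤ) : ℝ)| ≤ |(x : ℝ)| ^ η

theorem allDown_of {θ η u w : ℝ}
    (h : ∀ p : ℤ × ℤ, Adm θ p → |(|(p.2 : ℝ)|) - u| ≤ w → Good η p) : AllDown θ η u w :=
  fun d x h1 h2 h3 h4 => h (d, x) ⟨h1, h2, h3⟩ h4

end Pool.Agent.T63.CL
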