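import Pool.Agent.T63.CL.Rat

/-!
# From rationals with odd denominators to the `3x+k` maps on the integers
-/

set_option autoImplicit false

namespace Pool.Agent.T63.CL

/-- `r = x / k`, in terms of the numerator and the denominator -/
lemma frac_den {k x : ℤ} : ((((x : ℚ) / (k : ℚ)).den : ℤ)) ∣ k := by
  have := Rat.den_dvd x k
  rwa [show Rat.divInt x k = (x : ℚ) / (k : ℚ) by exact Rat.divInt_eq_div x k] at this

lemma frac_den_le {k x : ℤ} (hk : 1 ≤ k) : ((((x : ℚ) / (k : ℚ)).den : ℕ) : ℝ) ≤ (k : ℝ) := by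
  have h := Int.le_of_dvd (by omega) (frac_den (k := k) (x := x))
  exact_mod_cast h

lemma frac_oddDen {k x : ℤ} (hk2 : k % 2 = 1) (hk3 : ¬ (3 : ℤ) ∣ k) :
    OddDen ((x : ℚ) / (k : ℚ)) := by
  obtain ⟨m, hm⟩ := frac_den (k := k) (x := x)
  constructor
  · rcases Nat.even_or_odd ((x : ℚ) / (k : ℚ)).den with h | h
    · exfalso
      obtain ⟨i, hi⟩ := h
      rw [hi] at hm
      push_cast at hm
      rw [hm, show ((i : ℤ) + i) * m = 2 * (i * m) by ring] at hk2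
      omega
    · exact Nat.odd_iff.1 h
  · intro h
    apply hk3
    rw [hm]
    exact Dvd.dvd.mul_right (by exact_mod_cast h) m

lemma frac_abs {k x : ℤ} (hk : 1 ≤ k) : |(((x : ℚ) / (k : ℚ) : ℚ) : ℝ)| = |(x : ℝ)| / (k : ℝ) := by
  have h : (0 : ℝ) < k := by exact_mod_cast (by omega : 0 < k)
  push_cast
  rw [abs_div, abs_of_pos h]

lemma frac_down {k x : ℤ} (hk : 1 ≤ k) (hk2 : k % 2 = 1) {y : ℝ}
    (h : ∃ n : ℕ, |((TQ^[n] ((x : ℚ) / (k : ℚ)) : ℚ) : ℝ)| ≤ y) :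
    ∃ n : ℕ, |(((T k)^[n] x : ℤ) : ℝ)| ≤ k * y := by
  obtain ⟨n, hn⟩ := h
  have h0 : (0 : ℝ) < k := by exact_mod_cast (by omega : 0 < k)
  refine ⟨n, ?_⟩
  rw [TQ_iter hk2 n x] at hn
  push_cast at hn
  rw [abs_div, abs_of_pos h0, div_le_iff₀ h0] at hn
  linarith

end Pool.Agent.T63.CL
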