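import Mathlib
import Pool.Agent.T63.CL.Base

/-!
# The Syracuse map on the negative odd integers: counting the integers with large orbits
-/

set_option autoImplicit false

namespace Pool.Agent.T63.CL

/-- The Syracuse map. -/
def Syr (N : ℤ) : ℤ := (3 * N + 1) / 2 ^ padicValInt 2 (3 * N + 1)

lemma syr_spec {N : ℤ} (hN : N % 2 = 1) :
    ∃ v : ℕ, 3 * N + 1 = 2 ^ (v + 1) * Syr N ∧ Syr N % 2 = 1 := by
  have h0 : 3 * N + 1 ≠ 0 := by omega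
  obtain ⟨v, hv⟩ : ∃ v : ℕ, v = padicValInt 2 (3 * N + 1) := ⟨_, rfl⟩
  have h1 : ((2 : ℤ) ^ v) ∣ 3 * N + 1 := by
    rw [hv]
    have := padicValInt_dvd (p := 2) (a := 3 * N + 1)
    exact_mod_cast this
  have h2 : ¬ ((2 : ℤ) ^ (v + 1)) ∣ 3 * N + 1 := by
    intro h
    have h3 : ((2 : ℕ) : ℤ) ^ (v + 1) ∣ 3 * N + 1 := by exact_mod_cast h
    rw [padicValInt_dvd_iff] at h3
    rcases h3 with h3 | h3
    · exact h0 h3
    · omega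
  obtain ⟨m, hm⟩ := h1
  have h4 : Syr N = m := by
    unfold Syr
    rw [← hv, hm]
    exact Int.mul_ediv_cancel_left _ (by positivity)
  have h5 : m % 2 = 1 := by
    rcases Int.emod_two_eq_zero_or_one m with h6 | h6
    · exfalso
      apply h2
      obtain ⟨k, hk⟩ := Int.dvd_of_emod_eq_zero h6
      exact ⟨k, by rw [hm, hk, pow_succ]; ring⟩
    · exact h6
  have h6 : 1 ≤ v := by
    by_contra h7
    have h8 : v = 0 := by omega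
    rw [h8, pow_zero, one_mul] at hm
    omega
  refine ⟨v - 1, ?_, by rw [h4]; exact h5⟩
  rw [h4, Nat.sub_add_cancel h6]
  exact hm

lemma T_two_pow (a : ℕ) (S : ℤ) : T 1 (2 ^ (a + 1) * S) = 2 ^ a * S := by
  unfold T
  have h1 : (2 : ℤ) ^ (a + 1) * S = 2 * (2 ^ a * S) := by rw [pow_succ]; ring
  rw [h1, if_pos (by omega)]
  omega

lemma T_odd {S : ℤ} (hS : S % 2 = 1) : ∃ v : ℕ, T 1 S = 2 ^ v * Syr S := by
  obtain ⟨v, h1, -⟩ := syr_spec hS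
  refine ⟨v, ?_⟩
  unfold T
  rw [if_neg (by omega), h1]
  have h2 : (2 : ℤ) ^ (v + 1) * Syr S = 2 * (2 ^ v * Syr S) := by rw [pow_succ]; ring
  rw [h2]
  omega

/-- every term of the `3x+1` orbit of an odd integer is a power of two times a term of the Syracuse
orbit -/
theorem T_iter_syr {N : ℤ} (hN : N % 2 = 1) (n : ℕ) :
    ∃ a j : ℕ, (T 1)^[n] N = 2 ^ a * Syr^[j] N ∧ Syr^[j] N % 2 = 1 := by
  induction n with
  | zero => exact ⟨0, 0, by simp, hN⟩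
  | succ n ih =>
    obtain ⟨a, j, h1, h2⟩ := ih
    rw [Function.iterate_succ_apply', h1]
    cases a with
    | zero =>
      rw [pow_zero, one_mul]
      obtain ⟨v, h3⟩ := T_odd h2
      obtain ⟨-, -, h4⟩ := syr_spec h2
      refine ⟨v, j + 1, ?_, ?_⟩
      · rw [h3, Function.iterate_succ_apply']
      · rw [Function.iterate_succ_apply']
        exact h4
    | succ a => exact ⟨a, j, T_two_pow a _, h2⟩

/-- a term of the Syracuse orbit of `-n` is at most `y` in absolute value -/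
def DownS (n : ℕ) (y : ℝ) : Prop := ∃ j : ℕ, |((Syr^[j] (-(n : ℤ)) : ℤ) : ℝ)| ≤ y

theorem downS_of {n : ℕ} (hn : n % 2 = 1) {y : ℝ} (h : Down 1 (-(n : ℤ)) y) : DownS n y := by
  obtain ⟨i, hi⟩ := h
  obtain ⟨a, j, h1, -⟩ := T_iter_syr (N := -(n : ℤ)) (by omega) i
  refine ⟨j, le_trans ?_ hi⟩
  rw [h1]
  push_cast
  rw [abs_mul]
  have h2 : (1 : ℝ) ≤ |(2 : ℝ) ^ a| := by
    rw [abs_of_pos (by positivity)]
    exact one_le_pow₀ (by norm_num)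
  exact le_mul_of_one_le_left (abs_nonneg _) h2

/-- **One map, negative integers.** -/
theorem neg_base : ∃ c : ℝ, 1 - H < c ∧ c < 1 ∧ ∃ A : ℝ, 0 < A ∧ ∀ X y : ℝ, 1 ≤ X → 0 < y →
    {n : ℕ | (n % 2 = 1 ∧ ¬ DownS n y) ∧ (n : ℝ) ≤ X}.Finite ∧
    ({n : ℕ | (n % 2 = 1 ∧ ¬ DownS n y) ∧ (n : ℝ) ≤ X}.ncard : ℝ) ≤ A * y ^ (-c) * X := by
  obtain ⟨c, hc, hc1, A, hA, h⟩ := base
  refine ⟨c, hc, hc1, A, hA, fun X y hX hy => ?_⟩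
  have hfin : {n : ℕ | (n % 2 = 1 ∧ ¬ DownS n y) ∧ (n : ℝ) ≤ X}.Finite :=
    (Set.finite_Iic ⌊X⌋₊).subset fun n hn => Nat.le_floor hn.2
  refine ⟨hfin, ?_⟩
  have h1 := h 1 (by norm_num) (by norm_num) X y hX hy
  have h2 : ({n : ℕ | (n % 2 = 1 ∧ ¬ DownS n y) ∧ (n : ℝ) ≤ X}.ncard) ≤
      ({x : ℤ | |(x : ℝ)| ≤ X ∧ ¬ Down 1 x y}.ncard) := by
    refine Set.ncard_le_ncard_of_injOn (fun n : ℕ => -(n : ℤ)) ?_ ?_
      ((fin_abs X).subset fun x hx => hx.1)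
    · rintro n ⟨⟨g1, g2⟩, g3⟩
      refine ⟨?_, fun g4 => g2 (downS_of g1 g4)⟩
      push_cast
      rw [abs_neg, abs_of_nonneg (Nat.cast_nonneg n)]
      exact g3
    · intro a _ b _ hab
      simp only [neg_inj, Nat.cast_inj] at hab
      exact hab
  have h3 : (|((1 : ℤ) : ℝ)| / y) ^ c = y ^ (-c) := by
    rw [Int.cast_one, abs_one, one_div, Real.inv_rpow hy.le, Real.rpow_neg hy.le]
  rw [h3] at h1
  calc _ ≤ (({x : ℤ | |(x : ℝ)| ≤ X ∧ ¬ Down 1 x y}.ncard : ℕ) : ℝ) := by exact_mod_cast h2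
    _ ≤ A * X * y ^ (-c) := h1
    _ = _ := by ring

/-- **Power saving, negative integers.** -/
theorem neg_pow : ∃ c : ℝ, 1 - H < c ∧ c < 1 ∧ ∀ η : ℝ, 0 < η → η ≤ 1 →
    ∃ K : ℝ, ∀ X : ℝ, 1 ≤ X → {n : ℕ | (n % 2 = 1 ∧ ¬ DownS n ((n : ℝ) ^ η)) ∧ (n : ℝ) ≤ X}.Finite ∧
      ({n : ℕ | (n % 2 = 1 ∧ ¬ DownS n ((n : ℝ) ^ η)) ∧ (n : ℝ) ≤ X}.ncard : ℝ) ≤
        K * X ^ (1 - c * η) := by
  obtain ⟨c, hc, hc1, A, hA, h⟩ := neg_base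
  have hH := H_lt
  have hc0 : 0 < c := by linarith
  refine ⟨c, hc, hc1, fun η hη hη1 => ?_⟩
  have hfin : ∀ X : ℝ, {n : ℕ | (n % 2 = 1 ∧ ¬ DownS n ((n : ℝ) ^ η)) ∧ (n : ℝ) ≤ X}.Finite := fun X =>
    (Set.finite_Iic ⌊X⌋₊).subset fun n hn => Nat.le_floor hn.2
  have hcη : c * η < 1 := by nlinarith
  have hs : 0 < 1 - c * η := by linarith
  suffices hs' : ∃ K : ℝ, ∀ X : ℝ, 1 ≤ X →
      ({n : ℕ | (n % 2 = 1 ∧ ¬ DownS n ((n : ℝ) ^ η)) ∧ (n : ℝ) ≤ X}.ncard : ℝ) ≤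
        K * X ^ (1 - c * η) by
    obtain ⟨K, hK⟩ := hs'
    exact ⟨K, fun X hX => ⟨hfin X, hK X hX⟩⟩
  refine Pool.Agent.N255.TGX.dyadic
    (N := fun X => ({n : ℕ | (n % 2 = 1 ∧ ¬ DownS n ((n : ℝ) ^ η)) ∧ (n : ℝ) ≤ X}.ncard : ℝ))
    (C := 2 * A) (B := ({n : ℕ | (n % 2 = 1 ∧ ¬ DownS n ((n : ℝ) ^ η)) ∧ (n : ℝ) ≤ 2}.ncard : ℝ))
    (X₀ := 2) hs (by positivity) (Nat.cast_nonneg _) le_rfl ?_ ?_
  · intro X _ hX2
    have : {n : ℕ | (n % 2 = 1 ∧ ¬ DownS n ((n : ℝ) ^ η)) ∧ (n : ℝ) ≤ X} ⊆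
        {n : ℕ | (n % 2 = 1 ∧ ¬ DownS n ((n : ℝ) ^ η)) ∧ (n : ℝ) ≤ 2} :=
      fun p hp => ⟨hp.1, hp.2.trans hX2.le⟩
    have h2 := Set.ncard_le_ncard this (hfin 2)
    exact_mod_cast h2
  · intro X hX
    have hX0 : 0 < X := by linarith
    obtain ⟨y, hy⟩ : ∃ y : ℝ, y = (X / 2) ^ η := ⟨_, rfl⟩
    have hy0 : 0 < y := by rw [hy]; positivity
    obtain ⟨hbf, hbc⟩ := h X y (by linarith) hy0
    have hsub : {n : ℕ | (n % 2 = 1 ∧ ¬ DownS n ((n : ℝ) ^ η)) ∧ (n : ℝ) ≤ X} ⊆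
        {n : ℕ | (n % 2 = 1 ∧ ¬ DownS n ((n : ℝ) ^ η)) ∧ (n : ℝ) ≤ X / 2} ∪
          {n : ℕ | (n % 2 = 1 ∧ ¬ DownS n y) ∧ (n : ℝ) ≤ X} := by
      rintro n ⟨⟨h1, h4⟩, h5⟩
      rcases le_or_gt (n : ℝ) (X / 2) with h6 | h6
      · exact Or.inl ⟨⟨h1, h4⟩, h6⟩
      · right
        refine ⟨⟨h1, fun h7 => h4 ?_⟩, h5⟩
        obtain ⟨j, hj⟩ := h7
        refine ⟨j, hj.trans ?_⟩
        rw [hy]
        exact Real.rpow_le_rpow (by positivity) h6.le hη.le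
    have h1 := (Set.ncard_le_ncard hsub ((hfin _).union hbf)).trans (Set.ncard_union_le _ _)
    have h3 : A * y ^ (-c) * X ≤ 2 * A * X ^ (1 - c * η) := by
      have e1 : y ^ (-c) = 2 ^ (η * c) * X ^ (-(η * c)) := by
        rw [hy, ← Real.rpow_mul (by positivity), Real.div_rpow hX0.le (by norm_num),
          show η * -c = -(η * c) by ring, Real.rpow_neg (by norm_num : (0:ℝ) ≤ 2)]
        field_simp
      have e2 : (2 : ℝ) ^ (η * c) ≤ 2 := by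
        calc (2 : ℝ) ^ (η * c) ≤ (2 : ℝ) ^ (1 : ℝ) :=
              Real.rpow_le_rpow_of_exponent_le (by norm_num) (by rw [mul_comm]; exact hcη.le)
          _ = 2 := Real.rpow_one 2
      have e3 : X ^ (-(η * c)) * X = X ^ (1 - c * η) := by
        nth_rw 2 [← Real.rpow_one X]
        rw [← Real.rpow_add hX0]
        congr 1
        ring
      have e4 : 0 ≤ X ^ (1 - c * η) := by positivity
      calc A * y ^ (-c) * X = A * 2 ^ (η * c) * (X ^ (-(η * c)) * X) := by rw [e1]; ring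
        _ = A * 2 ^ (η * c) * X ^ (1 - c * η) := by rw [e3]
        _ ≤ A * 2 * X ^ (1 - c * η) := by gcongr
        _ = _ := by ring
    have h4 : ({n : ℕ | (n % 2 = 1 ∧ ¬ DownS n ((n : ℝ) ^ η)) ∧ (n : ℝ) ≤ X}.ncard : ℝ) ≤
        ({n : ℕ | (n % 2 = 1 ∧ ¬ DownS n ((n : ℝ) ^ η)) ∧ (n : ℝ) ≤ X / 2}.ncard : ℝ) +
          ({n : ℕ | (n % 2 = 1 ∧ ¬ DownS n y) ∧ (n : ℝ) ≤ X}.ncard : ℝ) := by exact_mod_cast h1
    show _ ≤ _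
    linarith

theorem neg_powε {c : ℝ} {η : ℝ}
    (h : ∃ K : ℝ, ∀ X : ℝ, 1 ≤ X →
      {n : ℕ | (n % 2 = 1 ∧ ¬ DownS n ((n : ℝ) ^ η)) ∧ (n : ℝ) ≤ X}.Finite ∧
      ({n : ℕ | (n % 2 = 1 ∧ ¬ DownS n ((n : ℝ) ^ η)) ∧ (n : ℝ) ≤ X}.ncard : ℝ) ≤
        K * X ^ (1 - c * η)) :
    ∀ ε : ℝ, 0 < ε → ∃ C : ℝ, ∀ X : ℝ, 1 ≤ X →
      {n : ℕ | (n % 2 = 1 ∧ ¬ DownS n ((n : ℝ) ^ η)) ∧ (n : ℝ) ≤ X}.Finite ∧
      ({n : ℕ | (n % 2 = 1 ∧ ¬ DownS n ((n : ℝ) ^ η)) ∧ (n : ℝ) ≤ X}.ncard : ℝ) ≤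
        C * X ^ (1 - c * η + ε) := by
  intro ε hε
  obtain ⟨K, hK⟩ := h
  refine ⟨|K|, fun X hX => ⟨(hK X hX).1, (hK X hX).2.trans ?_⟩⟩
  calc K * X ^ (1 - c * η) ≤ |K| * X ^ (1 - c * η) :=
        mul_le_mul_of_nonneg_right (le_abs_self K) (Real.rpow_nonneg (by linarith) _)
    _ ≤ |K| * X ^ (1 - c * η + ε) :=
        mul_le_mul_of_nonneg_left (Real.rpow_le_rpow_of_exponent_le hX (by linarith)) (abs_nonneg K)

end Pool.Agent.T63.CL
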