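import Mathlib
import Pool.Agent.T63.CL.Base

/-!
# The `3x+1` map on the rationals with odd denominators: counting the rationals with large orbits

The orbit of `x / k` under the `3x+1` map on the rationals with odd denominators is the orbit of `x` under
the `3x+k` map, divided by `k`.
-/

set_option autoImplicit false

namespace Pool.Agent.T63.CL

/-- The `3x+1` map on the rational numbers with odd denominators: `r / 2` if the numerator is even,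
`(3 r + 1) / 2` if it is odd. -/
def TQ (r : ℚ) : ℚ := if r.num % 2 = 0 then r / 2 else (3 * r + 1) / 2

lemma num_parity {k x : ℤ} (hk : k % 2 = 1) :
    ((x : ℚ) / (k : ℚ)).num % 2 = 0 ↔ x % 2 = 0 := by
  have hk0 : k ≠ 0 := by rintro rfl; simp at hk
  have hkq : (k : ℚ) ≠ 0 := by exact_mod_cast hk0
  obtain ⟨r, hr⟩ : ∃ r : ℚ, r = (x : ℚ) / (k : ℚ) := ⟨_, rfl⟩
  rw [← hr]
  have h1 : r.num * k = x * (r.den : ℤ) := by
    have h2 : (r.num : ℚ) * k = x * (r.den : ℚ) := by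
      have h3 : (r.num : ℚ) / (r.den : ℚ) = x / k := by rw [Rat.num_div_den, hr]
      have h4 : (r.den : ℚ) ≠ 0 := by exact_mod_cast r.den_ne_zero
      rw [div_eq_div_iff h4 hkq] at h3
      exact h3
    exact_mod_cast h2
  have hd : (r.den : ℤ) ∣ k := by
    rw [hr]
    have := Rat.den_dvd x k
    rwa [show Rat.divInt x k = (x : ℚ) / (k : ℚ) by exact Rat.divInt_eq_div x k] at this
  have hd2 : (r.den : ℤ) % 2 = 1 := by
    obtain ⟨m, hm⟩ := hd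
    rcases Int.emod_two_eq_zero_or_one (r.den : ℤ) with h5 | h5
    · exfalso
      rw [hm, Int.mul_emod, h5] at hk
      simp at hk
    · exact h5
  have h6 : (r.num * k) % 2 = (r.num % 2 * (k % 2)) % 2 := Int.mul_emod _ _ _
  have h7 : (x * (r.den : ℤ)) % 2 = (x % 2 * ((r.den : ℤ) % 2)) % 2 := Int.mul_emod _ _ _
  rw [hk, mul_one] at h6
  rw [hd2, mul_one] at h7
  rw [h1] at h6
  omega

theorem TQ_div {k x : ℤ} (hk : k % 2 = 1) : TQ ((x : ℚ) / (k : ℚ)) = (T k x : ℚ) / (k : ℚ) := by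
  have hk0 : k ≠ 0 := by rintro rfl; simp at hk
  have hkq : (k : ℚ) ≠ 0 := by exact_mod_cast hk0
  unfold TQ T
  by_cases h : x % 2 = 0
  · rw [if_pos ((num_parity hk).2 h), if_pos h]
    have h2 : ((x / 2 : ℤ) : ℚ) = x / 2 := by
      rw [Int.cast_div (by omega) (by norm_num)]
      norm_num
    rw [h2]
    ring
  · rw [if_neg (fun h1 => h ((num_parity hk).1 h1)), if_neg h]
    have h2 : (((3 * x + k) / 2 : ℤ) : ℚ) = (3 * x + k) / 2 := by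
      rw [Int.cast_div (by omega) (by norm_num)]
      push_cast
      ring
    rw [h2]
    field_simp

theorem TQ_iter {k : ℤ} (hk : k % 2 = 1) (n : ℕ) (x : ℤ) :
    TQ^[n] ((x : ℚ) / (k : ℚ)) = ((T k)^[n] x : ℚ) / (k : ℚ) := by
  induction n with
  | zero => rfl
  | succ n ih => rw [Function.iterate_succ_apply', ih, TQ_div hk, Function.iterate_succ_apply']

/-- some term of the orbit of `r` is at most `y` in absolute value -/
def DownQ (r : ℚ) (y : ℝ) : Prop := ∃ n : ℕ, |((TQ^[n] r : ℚ) : ℝ)| ≤ y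

/-- `r` has an odd denominator prime to `3` -/
def OddDen (r : ℚ) : Prop := r.den % 2 = 1 ∧ ¬ 3 ∣ r.den

lemma downQ_iff {r : ℚ} (h : OddDen r) (y : ℝ) :
    DownQ r y ↔ Down (r.den : ℤ) r.num ((r.den : ℝ) * y) := by
  have h1 : ((r.den : ℤ)) % 2 = 1 := by exact_mod_cast h.1
  have h2 : (0 : ℝ) < r.den := by exact_mod_cast r.den_pos
  have h3 : ∀ n : ℕ, TQ^[n] r = ((T (r.den : ℤ))^[n] r.num : ℚ) / (((r.den : ℕ) : ℤ) : ℚ) := by
    intro n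
    rw [← TQ_iter h1]
    congr 1
    push_cast
    exact (Rat.num_div_den r).symm
  unfold DownQ Down
  refine exists_congr fun n => ?_
  rw [h3 n]
  push_cast
  rw [abs_div, abs_of_pos h2, div_le_iff₀ h2, mul_comm]

/-- The rationals `r`, `|r| ≤ X`, with an odd denominator `≤ D` prime to `3`, whose orbit avoids
`[-y, y]`. -/
def BadRat (D X y : ℝ) : Set ℚ :=
  {r | OddDen r ∧ (r.den : ℝ) ≤ D ∧ |(r : ℝ)| ≤ X ∧ ¬ DownQ r y}

lemma abs_num (r : ℚ) : |(r.num : ℝ)| = (r.den : ℝ) * |(r : ℝ)| := by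
  have h2 : (0 : ℝ) < r.den := by exact_mod_cast r.den_pos
  have h1 : (r : ℝ) = (r.num : ℝ) / (r.den : ℝ) := by exact_mod_cast (Rat.num_div_den r).symm
  rw [h1, abs_div, abs_of_pos h2]
  field_simp

lemma rat_fin (D X : ℝ) : {r : ℚ | (r.den : ℝ) ≤ D ∧ |(r : ℝ)| ≤ X}.Finite := by
  have h1 : {p : ℤ × ℕ | |(p.1 : ℝ)| ≤ D * X ∧ p.2 ≤ ⌊D⌋₊}.Finite :=
    ((fin_abs (D * X)).prod (Set.finite_Iic ⌊D⌋₊)).subset fun p hp => ⟨hp.1, hp.2⟩
  refine Set.Finite.of_injOn (f := fun r : ℚ => (r.num, r.den)) ?_ ?_ h1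
  · rintro r ⟨h2, h3⟩
    refine ⟨?_, Nat.le_floor h2⟩
    show |(r.num : ℝ)| ≤ D * X
    rw [abs_num]
    have h4 : (0 : ℝ) < r.den := by exact_mod_cast r.den_pos
    exact mul_le_mul h2 h3 (abs_nonneg _) (h4.le.trans h2)
  · intro r _ s _ h
    simp only [Prod.mk.injEq] at h
    exact Rat.ext h.1 h.2

theorem rat_count {c A : ℝ} (hA : 0 < A)
    (h : ∀ d : ℤ, d % 2 = 1 → ¬ (3 : ℤ) ∣ d → ∀ X y : ℝ, 1 ≤ X → 0 < y →
      ({x : ℤ | |(x : ℝ)| ≤ X ∧ ¬ Down d x y}.ncard : ℝ) ≤ A * X * (|(d : ℝ)| / y) ^ c)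
    {D X y : ℝ} (hD : 1 ≤ D) (hX : 1 ≤ X) (hy : 0 < y) :
    (BadRat D X y).Finite ∧ ((BadRat D X y).ncard : ℝ) ≤ A * D ^ 2 * y ^ (-c) * X := by
  classical
  have hfin : (BadRat D X y).Finite := (rat_fin D X).subset fun r hr => ⟨hr.2.1, hr.2.2.1⟩
  refine ⟨hfin, ?_⟩
  obtain ⟨I, hI⟩ : ∃ I : Finset ℕ,
      I = (Finset.Icc 1 ⌊D⌋₊).filter fun d => d % 2 = 1 ∧ ¬ 3 ∣ d := ⟨_, rfl⟩
  have hsub : BadRat D X y ⊆ ⋃ d ∈ I, {r : ℚ | r.den = d ∧ OddDen r ∧ |(r : ℝ)| ≤ X ∧ ¬ DownQ r y} := by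
    rintro r ⟨h1, h2, h3, h4⟩
    rw [Set.mem_iUnion₂]
    refine ⟨r.den, ?_, rfl, h1, h3, h4⟩
    rw [hI, Finset.mem_filter, Finset.mem_Icc]
    exact ⟨⟨r.den_pos, Nat.le_floor h2⟩, h1⟩
  have hfin1 : ∀ d : ℕ, {r : ℚ | r.den = d ∧ OddDen r ∧ |(r : ℝ)| ≤ X ∧ ¬ DownQ r y}.Finite := fun d =>
    (rat_fin d X).subset fun r hr => ⟨by rw [hr.1], hr.2.2.1⟩
  have hone : ∀ d ∈ I, ({r : ℚ | r.den = d ∧ OddDen r ∧ |(r : ℝ)| ≤ X ∧ ¬ DownQ r y}.ncard : ℝ) ≤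
      A * X * y ^ (-c) * D := by
    intro d hd
    rw [hI, Finset.mem_filter, Finset.mem_Icc] at hd
    obtain ⟨⟨hd1, hdD⟩, hd2, hd3⟩ := hd
    have hdR : (1 : ℝ) ≤ d := by exact_mod_cast hd1
    have hdD' : (d : ℝ) ≤ D := (Nat.le_floor_iff (by linarith)).1 hdD
    have h1 := h (d : ℤ) (by exact_mod_cast hd2) (by exact_mod_cast hd3) (d * X) (d * y)
      (by nlinarith) (by positivity)
    have h2 : ({r : ℚ | r.den = d ∧ OddDen r ∧ |(r : ℝ)| ≤ X ∧ ¬ DownQ r y}.ncard) ≤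
        ({x : ℤ | |(x : ℝ)| ≤ d * X ∧ ¬ Down (d : ℤ) x (d * y)}.ncard) := by
      refine Set.ncard_le_ncard_of_injOn (fun r : ℚ => r.num) ?_ ?_
        ((fin_abs (d * X)).subset fun x hx => hx.1)
      · rintro r ⟨g1, g2, g3, g4⟩
        refine ⟨?_, fun g5 => g4 ?_⟩
        · rw [abs_num, g1]
          exact mul_le_mul_of_nonneg_left g3 (by positivity)
        · rw [downQ_iff g2, g1]
          exact g5
      · rintro r ⟨g1, -⟩ s ⟨g2, -⟩ h3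
        exact Rat.ext h3 (by rw [g1, g2])
    have h3 : (|((d : ℤ) : ℝ)| / (d * y)) ^ c = y ^ (-c) := by
      have e : |((d : ℤ) : ℝ)| / (d * y) = y⁻¹ := by
        push_cast
        rw [abs_of_nonneg (by positivity)]
        field_simp
      rw [e, Real.inv_rpow hy.le, Real.rpow_neg hy.le]
    rw [h3] at h1
    have h4 : (({r : ℚ | r.den = d ∧ OddDen r ∧ |(r : ℝ)| ≤ X ∧ ¬ DownQ r y}.ncard : ℕ) : ℝ) ≤
        A * (d * X) * y ^ (-c) := le_trans (by exact_mod_cast h2) h1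
    refine h4.trans ?_
    have h5 : 0 < y ^ (-c) := Real.rpow_pos_of_pos hy _
    have h6 : A * (d * X) * y ^ (-c) = A * X * y ^ (-c) * d := by ring
    rw [h6]
    exact mul_le_mul_of_nonneg_left hdD' (by positivity)
  have h1 : ((BadRat D X y).ncard : ℝ) ≤
      ∑ d ∈ I, ({r : ℚ | r.den = d ∧ OddDen r ∧ |(r : ℝ)| ≤ X ∧ ¬ DownQ r y}.ncard : ℝ) := by
    have h2 := Set.ncard_le_ncard hsub (Set.Finite.biUnion (Finset.finite_toSet I) fun d _ => hfin1 d)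
    have h3 : (⋃ d ∈ I, {r : ℚ | r.den = d ∧ OddDen r ∧ |(r : ℝ)| ≤ X ∧ ¬ DownQ r y}).ncard ≤
        ∑ d ∈ I, ({r : ℚ | r.den = d ∧ OddDen r ∧ |(r : ℝ)| ≤ X ∧ ¬ DownQ r y}.ncard) := by
      clear h2 hsub hone hI
      induction I using Finset.induction_on with
      | empty => simp
      | insert a s ha ih =>
        rw [Finset.set_biUnion_insert, Finset.sum_insert ha]
        exact (Set.ncard_union_le _ _).trans (Nat.add_le_add le_rfl ih)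
    exact_mod_cast h2.trans h3
  have hIc : ((I.card : ℕ) : ℝ) ≤ D := by
    have h2 : I.card ≤ ⌊D⌋₊ := by
      rw [hI]
      refine (Finset.card_filter_le _ _).trans ?_
      simp
    have h3 : ((⌊D⌋₊ : ℕ) : ℝ) ≤ D := Nat.floor_le (by linarith)
    exact le_trans (by exact_mod_cast h2) h3
  have h5 : 0 < y ^ (-c) := Real.rpow_pos_of_pos hy _
  calc ((BadRat D X y).ncard : ℝ) ≤ _ := h1
    _ ≤ ∑ _d ∈ I, A * X * y ^ (-c) * D := Finset.sum_le_sum hone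
    _ = (I.card : ℝ) * (A * X * y ^ (-c) * D) := by rw [Finset.sum_const, nsmul_eq_mul]
    _ ≤ D * (A * X * y ^ (-c) * D) := mul_le_mul_of_nonneg_right hIc (by positivity)
    _ = _ := by ring

/-- the admissible rationals: the denominator is odd, prime to `3` and at most `|r| ^ θ` -/
def AdmQ (θ : ℝ) (r : ℚ) : Prop := OddDen r ∧ (r.den : ℝ) ≤ |(r : ℝ)| ^ θ

/-- the orbit of `r` comes down to a value at most `|r| ^ η` -/
def GoodQ (η : ℝ) (r : ℚ) : Prop := DownQ r (|(r : ℝ)| ^ η)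

/-- **Power saving for rationals.** -/
theorem rats : ∃ c : ℝ, 1 - H < c ∧ c < 1 ∧ ∀ η θ : ℝ, 0 < η → η ≤ 1 → 0 ≤ θ →
    ∃ K : ℝ, ∀ X : ℝ, 1 ≤ X → {r | (AdmQ θ r ∧ ¬ GoodQ η r) ∧ |(r : ℝ)| ≤ X}.Finite ∧
      ({r | (AdmQ θ r ∧ ¬ GoodQ η r) ∧ |(r : ℝ)| ≤ X}.ncard : ℝ) ≤
        K * X ^ (1 + 2 * θ - c * η) := by
  obtain ⟨c, hc, hc1, A, hA, h⟩ := base
  have hH := H_lt
  have hc0 : 0 < c := by linarith
  refine ⟨c, hc, hc1, fun η θ hη hη1 hθ => ?_⟩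
  have hfin : ∀ X : ℝ, {r | (AdmQ θ r ∧ ¬ GoodQ η r) ∧ |(r : ℝ)| ≤ X}.Finite := by
    intro X
    apply (rat_fin (X ^ θ) X).subset
    rintro r ⟨⟨⟨-, h3⟩, -⟩, h5⟩
    exact ⟨h3.trans (Real.rpow_le_rpow (abs_nonneg _) h5 hθ), h5⟩
  have hcη : c * η < 1 := by nlinarith
  have hs : 0 < 1 + 2 * θ - c * η := by
    linarith
  suffices hs' : ∃ K : ℝ, ∀ X : ℝ, 1 ≤ X →
      ({r | (AdmQ θ r ∧ ¬ GoodQ η r) ∧ |(r : ℝ)| ≤ X}.ncard : ℝ) ≤
        K * X ^ (1 + 2 * θ - c * η) by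
    obtain ⟨K, hK⟩ := hs'
    exact ⟨K, fun X hX => ⟨hfin X, hK X hX⟩⟩
  refine Pool.Agent.N255.TGX.dyadic
    (N := fun X => ({r | (AdmQ θ r ∧ ¬ GoodQ η r) ∧ |(r : ℝ)| ≤ X}.ncard : ℝ))
    (C := 2 * A) (B := ({r | (AdmQ θ r ∧ ¬ GoodQ η r) ∧ |(r : ℝ)| ≤ 2}.ncard : ℝ)) (X₀ := 2)
    hs (by positivity) (Nat.cast_nonneg _) le_rfl ?_ ?_
  · intro X _ hX2
    have : {r | (AdmQ θ r ∧ ¬ GoodQ η r) ∧ |(r : ℝ)| ≤ X} ⊆
        {r | (AdmQ θ r ∧ ¬ GoodQ η r) ∧ |(r : ℝ)| ≤ 2} := fun p hp => ⟨hp.1, hp.2.trans hX2.le⟩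
    have h2 := Set.ncard_le_ncard this (hfin 2)
    exact_mod_cast h2
  · intro X hX
    have hX0 : 0 < X := by linarith
    obtain ⟨y, hy⟩ : ∃ y : ℝ, y = (X / 2) ^ η := ⟨_, rfl⟩
    have hy0 : 0 < y := by rw [hy]; positivity
    have hD : 1 ≤ X ^ θ := Real.one_le_rpow (by linarith) hθ
    obtain ⟨hbf, hbc⟩ := rat_count hA h (D := X ^ θ) (X := X) (y := y) hD (by linarith) hy0
    have hsub : {r | (AdmQ θ r ∧ ¬ GoodQ η r) ∧ |(r : ℝ)| ≤ X} ⊆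
        {r | (AdmQ θ r ∧ ¬ GoodQ η r) ∧ |(r : ℝ)| ≤ X / 2} ∪ BadRat (X ^ θ) X y := by
      rintro r ⟨⟨⟨h1, h3⟩, h4⟩, h5⟩
      rcases le_or_gt |(r : ℝ)| (X / 2) with h6 | h6
      · exact Or.inl ⟨⟨⟨h1, h3⟩, h4⟩, h6⟩
      · right
        refine ⟨h1, h3.trans (Real.rpow_le_rpow (abs_nonneg _) h5 hθ), h5, fun h7 => h4 ?_⟩
        obtain ⟨n, hn⟩ := h7
        refine ⟨n, hn.trans ?_⟩
        rw [hy]
        exact Real.rpow_le_rpow (by positivity) h6.le hη.le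
    have h1 := (Set.ncard_le_ncard hsub ((hfin _).union hbf)).trans (Set.ncard_union_le _ _)
    have h3 : A * (X ^ θ) ^ 2 * y ^ (-c) * X ≤ 2 * A * X ^ (1 + 2 * θ - c * η) := by
      have e1 : y ^ (-c) = 2 ^ (η * c) * X ^ (-(η * c)) := by
        rw [hy, ← Real.rpow_mul (by positivity), Real.div_rpow hX0.le (by norm_num),
          show η * -c = -(η * c) by ring, Real.rpow_neg (by norm_num : (0:ℝ) ≤ 2)]
        field_simp
      have e2 : (2 : ℝ) ^ (η * c) ≤ 2 := by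
        calc (2 : ℝ) ^ (η * c) ≤ (2 : ℝ) ^ (1 : ℝ) :=
              Real.rpow_le_rpow_of_exponent_le (by norm_num) (by rw [mul_comm]; exact hcη.le)
          _ = 2 := Real.rpow_one 2
      have e3 : (X ^ θ) ^ 2 * X ^ (-(η * c)) * X = X ^ (1 + 2 * θ - c * η) := by
        rw [← Real.rpow_natCast (X ^ θ), ← Real.rpow_mul hX0.le]
        nth_rw 3 [← Real.rpow_one X]
        rw [← Real.rpow_add hX0, ← Real.rpow_add hX0]
        congr 1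
        push_cast
        ring
      have e4 : 0 ≤ X ^ (1 + 2 * θ - c * η) := by positivity
      calc A * (X ^ θ) ^ 2 * y ^ (-c) * X
          = A * 2 ^ (η * c) * ((X ^ θ) ^ 2 * X ^ (-(η * c)) * X) := by rw [e1]; ring
        _ = A * 2 ^ (η * c) * X ^ (1 + 2 * θ - c * η) := by rw [e3]
        _ ≤ A * 2 * X ^ (1 + 2 * θ - c * η) := by gcongr
        _ = _ := by ring
    have h4 : ({r | (AdmQ θ r ∧ ¬ GoodQ η r) ∧ |(r : ℝ)| ≤ X}.ncard : ℝ) ≤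
        ({r | (AdmQ θ r ∧ ¬ GoodQ η r) ∧ |(r : ℝ)| ≤ X / 2}.ncard : ℝ) +
          ((BadRat (X ^ θ) X y).ncard : ℝ) := by exact_mod_cast h1
    show _ ≤ _
    linarith

theorem ratsε {c : ℝ} {η θ : ℝ}
    (h : ∃ K : ℝ, ∀ X : ℝ, 1 ≤ X → {r | (AdmQ θ r ∧ ¬ GoodQ η r) ∧ |(r : ℝ)| ≤ X}.Finite ∧
      ({r | (AdmQ θ r ∧ ¬ GoodQ η r) ∧ |(r : ℝ)| ≤ X}.ncard : ℝ) ≤
        K * X ^ (1 + 2 * θ - c * η)) :
    ∀ ε : ℝ, 0 < ε → ∃ C : ℝ, ∀ X : ℝ, 1 ≤ X →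
      {r | (AdmQ θ r ∧ ¬ GoodQ η r) ∧ |(r : ℝ)| ≤ X}.Finite ∧
      ({r | (AdmQ θ r ∧ ¬ GoodQ η r) ∧ |(r : ℝ)| ≤ X}.ncard : ℝ) ≤
        C * X ^ (1 + 2 * θ - c * η + ε) := by
  intro ε hε
  obtain ⟨K, hK⟩ := h
  refine ⟨|K|, fun X hX => ⟨(hK X hX).1, (hK X hX).2.trans ?_⟩⟩
  calc K * X ^ (1 + 2 * θ - c * η) ≤ |K| * X ^ (1 + 2 * θ - c * η) :=
        mul_le_mul_of_nonneg_right (le_abs_self K) (Real.rpow_nonneg (by linarith) _)
    _ ≤ |K| * X ^ (1 + 2 * θ - c * η + ε) :=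
        mul_le_mul_of_nonneg_left (Real.rpow_le_rpow_of_exponent_le hX (by linarith)) (abs_nonneg K)

end Pool.Agent.T63.CL
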